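import Mathlib

/-!
# Immanants of Hadamard products of Jacobi-Trudi matrices: the conjecture fails

For every `n ≥ 3` there are partitions of length at most `n` for which the determinant (the immanant
of the sign character, which is both the ordinary and the monomial immanant for `η = (1^n)`) of
`JT_{λ/μ}(x) * JT_{ν/ρ}(y)` has a negative coefficient at `m_{(1^43)}(x) m_{(1^47)}(y)`.
-/

open Finset

namespace Pool.Agent.Results.MP_099a0f_co.NegativeDeterminants

/-- The variables: `Sum.inl i` stands for `x_i` and `Sum.inr i` for `y_i`. -/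
abbrev Var : Type := ℕ ⊕ ℕ

/-- The exponent vector of the squarefree monomial `∏_{i ∈ S} x_i * ∏_{j ∈ T} y_j`. -/
noncomputable def sqf (S T : Finset ℕ) : Var →₀ ℕ :=
  (∑ i ∈ S, Finsupp.single (Sum.inl i) 1) + ∑ j ∈ T, Finsupp.single (Sum.inr j) 1

open Classical in
/-- The elementary symmetric function `e_k(x)`, as a formal power series in all the variables:
the sum of all squarefree monomials of degree `k` in the variables `x_i`. -/
noncomputable def ex (k : ℤ) : MvPowerSeries Var ℤ :=
  fun d => if ∃ S : Finset ℕ, (S.card : ℤ) = k ∧ d = sqf S ∅ then 1 else 0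

open Classical in
/-- The elementary symmetric function `e_k(y)`. -/
noncomputable def ey (k : ℤ) : MvPowerSeries Var ℤ :=
  fun d => if ∃ T : Finset ℕ, (T.card : ℤ) = k ∧ d = sqf ∅ T then 1 else 0

/-- The Jacobi-Trudi matrix `(e_{λ_i - μ_j - i + j})`, where `e` is `ex` or `ey`. -/
def JT {n : ℕ} (e : ℤ → MvPowerSeries Var ℤ) (lam mu : Fin n → ℕ) :
    Matrix (Fin n) (Fin n) (MvPowerSeries Var ℤ) :=
  Matrix.of fun i j => e ((lam i : ℤ) - mu j - (i : ℕ) + (j : ℕ))

/-- The immanant of the matrix `A` for the integer valued function `f` on the symmetric group. -/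
noncomputable def immanant {n : ℕ} (f : Equiv.Perm (Fin n) → ℤ)
    (A : Matrix (Fin n) (Fin n) (MvPowerSeries Var ℤ)) : MvPowerSeries Var ℤ :=
  ∑ w : Equiv.Perm (Fin n), MvPowerSeries.C (f w) * ∏ i, A i (w i)

/-! ### Coefficients at squarefree monomials -/

lemma sqf_inl (S T : Finset ℕ) (i : ℕ) : sqf S T (Sum.inl i) = if i ∈ S then 1 else 0 := by
  classical
  simp [sqf, Finsupp.single_apply]

lemma sqf_inr (S T : Finset ℕ) (i : ℕ) : sqf S T (Sum.inr i) = if i ∈ T then 1 else 0 := by
  classical
  simp [sqf, Finsupp.single_apply]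

lemma sqf_inj {S T S' T' : Finset ℕ} (h : sqf S T = sqf S' T') : S = S' ∧ T = T' := by
  constructor
  · ext i
    have := DFunLike.congr_fun h (Sum.inl i)
    rw [sqf_inl, sqf_inl] at this
    by_cases h1 : i ∈ S <;> by_cases h2 : i ∈ S' <;> simp_all
  · ext i
    have := DFunLike.congr_fun h (Sum.inr i)
    rw [sqf_inr, sqf_inr] at this
    by_cases h1 : i ∈ T <;> by_cases h2 : i ∈ T' <;> simp_all

lemma coeff_sqf_mul (S T : Finset ℕ) (f g : MvPowerSeries Var ℤ) :
    MvPowerSeries.coeff (sqf S T) (f * g) =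
      ∑ S1 ∈ S.powerset, ∑ T1 ∈ T.powerset,
        MvPowerSeries.coeff (sqf S1 T1) f * MvPowerSeries.coeff (sqf (S \ S1) (T \ T1)) g := by
  classical
  rw [MvPowerSeries.coeff_mul, ← Finset.sum_product']
  symm
  refine Finset.sum_bij (fun p _ => (sqf p.1 p.2, sqf (S \ p.1) (T \ p.2))) ?_ ?_ ?_ ?_
  · rintro ⟨S1, T1⟩ hp
    simp only [Finset.mem_product, Finset.mem_powerset] at hp
    simp only [Finset.HasAntidiagonal.mem_antidiagonal]
    ext v
    rcases v with i | i
    · rw [Finsupp.add_apply, sqf_inl, sqf_inl, sqf_inl]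
      have := @hp.1 i
      by_cases h1 : i ∈ S1 <;> by_cases h2 : i ∈ S <;> simp_all
    · rw [Finsupp.add_apply, sqf_inr, sqf_inr, sqf_inr]
      have := @hp.2 i
      by_cases h1 : i ∈ T1 <;> by_cases h2 : i ∈ T <;> simp_all
  · rintro ⟨S1, T1⟩ hp ⟨S2, T2⟩ hq h
    simp only [Prod.mk.injEq] at h
    have := sqf_inj h.1
    exact Prod.ext this.1 this.2
  · rintro ⟨a, b⟩ hab
    simp only [Finset.HasAntidiagonal.mem_antidiagonal] at hab
    have hx : ∀ i, a (Sum.inl i) + b (Sum.inl i) = if i ∈ S then 1 else 0 := by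
      intro i
      have := DFunLike.congr_fun hab (Sum.inl i)
      rwa [Finsupp.add_apply, sqf_inl] at this
    have hy : ∀ i, a (Sum.inr i) + b (Sum.inr i) = if i ∈ T then 1 else 0 := by
      intro i
      have := DFunLike.congr_fun hab (Sum.inr i)
      rwa [Finsupp.add_apply, sqf_inr] at this
    refine ⟨(S.filter (fun i => a (Sum.inl i) = 1), T.filter (fun i => a (Sum.inr i) = 1)),
      ?_, ?_⟩
    · simp
    · refine Prod.ext ?_ ?_
      · ext v
        rcases v with i | i
        · have := hx i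
          show sqf _ _ (Sum.inl i) = a (Sum.inl i)
          rw [sqf_inl]
          by_cases h2 : i ∈ S
          · simp only [Finset.mem_filter, h2, true_and]
            rw [if_pos h2] at this
            split_ifs with h3 <;> omega
          · simp only [Finset.mem_filter, h2, false_and, if_false]
            rw [if_neg h2] at this
            omega
        · have := hy i
          show sqf _ _ (Sum.inr i) = a (Sum.inr i)
          rw [sqf_inr]
          by_cases h2 : i ∈ T
          · simp only [Finset.mem_filter, h2, true_and]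
            rw [if_pos h2] at this
            split_ifs with h3 <;> omega
          · simp only [Finset.mem_filter, h2, false_and, if_false]
            rw [if_neg h2] at this
            omega
      · ext v
        rcases v with i | i
        · have := hx i
          show sqf _ _ (Sum.inl i) = b (Sum.inl i)
          rw [sqf_inl]
          by_cases h2 : i ∈ S
          · simp only [Finset.mem_sdiff, Finset.mem_filter, h2, true_and]
            rw [if_pos h2] at this
            split_ifs with h3 <;> omega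
          · simp only [Finset.mem_sdiff, Finset.mem_filter, h2, false_and, if_false]
            rw [if_neg h2] at this
            omega
        · have := hy i
          show sqf _ _ (Sum.inr i) = b (Sum.inr i)
          rw [sqf_inr]
          by_cases h2 : i ∈ T
          · simp only [Finset.mem_sdiff, Finset.mem_filter, h2, true_and]
            rw [if_pos h2] at this
            split_ifs with h3 <;> omega
          · simp only [Finset.mem_sdiff, Finset.mem_filter, h2, false_and, if_false]
            rw [if_neg h2] at this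
            omega
  · rintro ⟨S1, T1⟩ _
    rfl

/-- `f` has at every squarefree monomial of bidegree `(r, s)` the coefficient `F r s`. -/
def Typ (f : MvPowerSeries Var ℤ) (F : ℕ → ℕ → ℤ) : Prop :=
  ∀ S T : Finset ℕ, MvPowerSeries.coeff (sqf S T) f = F S.card T.card

lemma Typ.mul {f g : MvPowerSeries Var ℤ} {F G : ℕ → ℕ → ℤ} (hf : Typ f F) (hg : Typ g G) :
    Typ (f * g) (fun r s => ∑ a ∈ range (r + 1), ∑ b ∈ range (s + 1),
      (r.choose a : ℤ) * ((s.choose b : ℤ) * (F a b * G (r - a) (s - b)))) := by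
  classical
  intro S T
  rw [coeff_sqf_mul]
  have h1 : ∀ S1 ∈ S.powerset, (∑ T1 ∈ T.powerset,
        MvPowerSeries.coeff (sqf S1 T1) f * MvPowerSeries.coeff (sqf (S \ S1) (T \ T1)) g) =
      ∑ b ∈ range (T.card + 1), T.card.choose b •
        (F S1.card b * G (S.card - S1.card) (T.card - b)) := by
    intro S1 hS1
    rw [← Finset.sum_powerset_apply_card
      (fun b => F S1.card b * G (S.card - S1.card) (T.card - b))]
    refine Finset.sum_congr rfl fun T1 hT1 => ?_
    rw [hf, hg, Finset.card_sdiff_of_subset (Finset.mem_powerset.mp hS1),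
      Finset.card_sdiff_of_subset (Finset.mem_powerset.mp hT1)]
  rw [Finset.sum_congr rfl h1]
  rw [Finset.sum_powerset_apply_card (fun a => ∑ b ∈ range (T.card + 1), T.card.choose b •
        (F a b * G (S.card - a) (T.card - b)))]
  refine Finset.sum_congr rfl fun a _ => ?_
  rw [Finset.smul_sum]
  refine Finset.sum_congr rfl fun b _ => ?_
  simp

lemma typ_ex (k : ℕ) : Typ (ex k) (fun r s => if r = k ∧ s = 0 then 1 else 0) := by
  classical
  intro S T
  show ex k (sqf S T) = (if S.card = k ∧ T.card = 0 then (1 : ℤ) else 0)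
  unfold ex
  by_cases h : S.card = k ∧ T.card = 0
  · rw [if_pos h, if_pos]
    refine ⟨S, by exact_mod_cast h.1, ?_⟩
    rw [Finset.card_eq_zero.mp h.2]
  · rw [if_neg h, if_neg]
    rintro ⟨S', h1, h2⟩
    obtain ⟨h3, h4⟩ := sqf_inj h2
    refine h ⟨?_, ?_⟩
    · rw [h3]; exact_mod_cast h1
    · rw [h4]; rfl

lemma typ_ey (k : ℕ) : Typ (ey k) (fun r s => if r = 0 ∧ s = k then 1 else 0) := by
  classical
  intro S T
  show ey k (sqf S T) = (if S.card = 0 ∧ T.card = k then (1 : ℤ) else 0)
  unfold ey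
  by_cases h : S.card = 0 ∧ T.card = k
  · rw [if_pos h, if_pos]
    refine ⟨T, by exact_mod_cast h.2, ?_⟩
    rw [Finset.card_eq_zero.mp h.1]
  · rw [if_neg h, if_neg]
    rintro ⟨T', h1, h2⟩
    obtain ⟨h3, h4⟩ := sqf_inj h2
    refine h ⟨?_, ?_⟩
    · rw [h3]; rfl
    · rw [h4]; exact_mod_cast h1

lemma typ_one : Typ (1 : MvPowerSeries Var ℤ) (fun r s => if r = 0 ∧ s = 0 then 1 else 0) := by
  classical
  intro S T
  show _ = (if S.card = 0 ∧ T.card = 0 then (1 : ℤ) else 0)
  rw [MvPowerSeries.coeff_one]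
  have h0 : (0 : Var →₀ ℕ) = sqf ∅ ∅ := by simp [sqf]
  by_cases h : S.card = 0 ∧ T.card = 0
  · rw [if_pos h, if_pos]
    rw [Finset.card_eq_zero.mp h.1, Finset.card_eq_zero.mp h.2, h0]
  · rw [if_neg h, if_neg]
    intro h2
    rw [h0] at h2
    obtain ⟨h3, h4⟩ := sqf_inj h2
    exact h ⟨by rw [h3]; rfl, by rw [h4]; rfl⟩

lemma typ_congr {f : MvPowerSeries Var ℤ} {F G : ℕ → ℕ → ℤ} (hf : Typ f F)
    (h : ∀ r s, F r s = G r s) : Typ f G := fun S T => by rw [hf, h]

/-- Multiplying by `e_a(x) e_b(y)`. -/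
lemma Typ.step {g : MvPowerSeries Var ℤ} {G : ℕ → ℕ → ℤ} (hg : Typ g G) (a b : ℕ) :
    Typ (ex a * ey b * g) (fun r s => (r.choose a : ℤ) * ((s.choose b : ℤ) *
      G (r - a) (s - b))) := by
  have h1 : Typ (ey b * g) (fun r s => (s.choose b : ℤ) * G r (s - b)) := by
    refine typ_congr ((typ_ey b).mul hg) fun r s => ?_
    rw [Finset.sum_eq_single 0]
    · by_cases hb : b ≤ s
      · rw [Finset.sum_eq_single b]
        · simp
        · intro c _ hc
          simp [hc]
        · intro hc
          exact absurd (Finset.mem_range.mpr (Nat.lt_succ_of_le hb)) hc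
      · rw [Finset.sum_eq_zero]
        · rw [Nat.choose_eq_zero_of_lt (not_le.mp hb)]
          simp
        · intro c hc
          have : c ≠ b := by
            rintro rfl
            exact hb (Nat.lt_succ_iff.mp (Finset.mem_range.mp hc))
          simp [this]
    · intro c _ hc
      simp [hc]
    · intro h
      simp at h
  rw [mul_assoc]
  refine typ_congr ((typ_ex a).mul h1) fun r s => ?_
  by_cases ha : a ≤ r
  · rw [Finset.sum_eq_single a]
    · rw [Finset.sum_eq_single 0]
      · simp
      · intro c _ hc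
        simp [hc]
      · intro h
        simp at h
    · intro c _ hc
      simp [hc]
    · intro hc
      exact absurd (Finset.mem_range.mpr (Nat.lt_succ_of_le ha)) hc
  · rw [Finset.sum_eq_zero]
    · rw [Nat.choose_eq_zero_of_lt (not_le.mp ha)]
      simp
    · intro c hc
      have : c ≠ a := by
        rintro rfl
        exact ha (Nat.lt_succ_iff.mp (Finset.mem_range.mp hc))
      simp [this]

/-- The coefficient of a product of three entries. -/
lemma coeff_three (S T : Finset ℕ) (a b c d e f : ℕ) :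
    MvPowerSeries.coeff (sqf S T) ((ex a * ey b) * (ex c * ey d) * (ex e * ey f)) =
      (S.card.choose a : ℤ) * ((T.card.choose b : ℤ) * (((S.card - a).choose c : ℤ) *
        (((T.card - b).choose d : ℤ) * (((S.card - a - c).choose e : ℤ) *
          (((T.card - b - d).choose f : ℤ) *
            (if S.card - a - c - e = 0 ∧ T.card - b - d - f = 0 then 1 else 0)))))) := by
  have h := ((typ_one.step e f).step c d).step a b
  have h2 : MvPowerSeries.coeff (sqf S T) (ex a * ey b * (ex c * ey d * (ex e * ey f * 1))) =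
    _ := h S T
  rw [show (ex a * ey b) * (ex c * ey d) * (ex e * ey f) =
    ex a * ey b * (ex c * ey d * (ex e * ey f * 1)) by ring]
  exact h2

lemma immanant_sign {n : ℕ} (A : Matrix (Fin n) (Fin n) (MvPowerSeries Var ℤ)) :
    immanant (fun w => (Equiv.Perm.sign w : ℤ)) A = A.det := by
  rw [← Matrix.det_transpose, Matrix.det_apply']
  unfold immanant
  refine Finset.sum_congr rfl fun w _ => ?_
  simp only [Matrix.transpose_apply]
  congr 1
  rw [← map_intCast (MvPowerSeries.C (σ := Var) (R := ℤ))]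
  simp

/-- The negative coefficient for `3 × 3` matrices. -/
lemma base : MvPowerSeries.coeff (sqf (range 43) (range 47))
    (Matrix.det (Matrix.hadamard (JT ex ![17, 15, 15] ![2, 2, 0])
      (JT ey ![17, 17, 15] ![2, 0, 0]))) < 0 := by
  have e00 : JT ex ![17, 15, 15] ![2, 2, 0] 0 0 = ex (15 : ℕ) := by simp [JT]
  have e01 : JT ex ![17, 15, 15] ![2, 2, 0] 0 1 = ex (16 : ℕ) := by simp [JT]
  have e02 : JT ex ![17, 15, 15] ![2, 2, 0] 0 2 = ex (19 : ℕ) := by simp [JT]
  have e10 : JT ex ![17, 15, 15] ![2, 2, 0] 1 0 = ex (12 : ℕ) := by simp [JT]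
  have e11 : JT ex ![17, 15, 15] ![2, 2, 0] 1 1 = ex (13 : ℕ) := by simp [JT]
  have e12 : JT ex ![17, 15, 15] ![2, 2, 0] 1 2 = ex (16 : ℕ) := by simp [JT]
  have e20 : JT ex ![17, 15, 15] ![2, 2, 0] 2 0 = ex (11 : ℕ) := by simp [JT]
  have e21 : JT ex ![17, 15, 15] ![2, 2, 0] 2 1 = ex (12 : ℕ) := by simp [JT]
  have e22 : JT ex ![17, 15, 15] ![2, 2, 0] 2 2 = ex (15 : ℕ) := by simp [JT]
  have f00 : JT ey ![17, 17, 15] ![2, 0, 0] 0 0 = ey (15 : ℕ) := by simp [JT]
  have f01 : JT ey ![17, 17, 15] ![2, 0, 0] 0 1 = ey (18 : ℕ) := by simp [JT]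
  have f02 : JT ey ![17, 17, 15] ![2, 0, 0] 0 2 = ey (19 : ℕ) := by simp [JT]
  have f10 : JT ey ![17, 17, 15] ![2, 0, 0] 1 0 = ey (14 : ℕ) := by simp [JT]
  have f11 : JT ey ![17, 17, 15] ![2, 0, 0] 1 1 = ey (17 : ℕ) := by simp [JT]
  have f12 : JT ey ![17, 17, 15] ![2, 0, 0] 1 2 = ey (18 : ℕ) := by simp [JT]
  have f20 : JT ey ![17, 17, 15] ![2, 0, 0] 2 0 = ey (11 : ℕ) := by simp [JT]
  have f21 : JT ey ![17, 17, 15] ![2, 0, 0] 2 1 = ey (14 : ℕ) := by simp [JT]
  have f22 : JT ey ![17, 17, 15] ![2, 0, 0] 2 2 = ey (15 : ℕ) := by simp [JT]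
  rw [Matrix.det_fin_three]
  simp only [Matrix.hadamard_apply, e00, e01, e02, e10, e11, e12, e20, e21, e22,
    f00, f01, f02, f10, f11, f12, f20, f21, f22, map_sub, map_add, coeff_three, card_range]
  norm_num [Nat.choose_eq_factorial_div_factorial, Nat.factorial]

lemma ex_neg {k : ℤ} (hk : k < 0) : ex k = 0 := by
  classical
  ext d
  show ex k d = 0
  unfold ex
  rw [if_neg]
  rintro ⟨S, h1, -⟩
  omega

lemma ex_zero : ex 0 = 1 := by
  classical
  ext d
  show ex 0 d = _
  unfold ex
  rw [MvPowerSeries.coeff_one]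
  have h0 : (0 : Var →₀ ℕ) = sqf ∅ ∅ := by simp [sqf]
  by_cases h : d = 0
  · rw [if_pos h, if_pos]
    exact ⟨∅, by simp, by rw [h, h0]⟩
  · rw [if_neg h, if_neg]
    rintro ⟨S, h1, h2⟩
    have : S = ∅ := by
      rw [← Finset.card_eq_zero]
      exact_mod_cast h1
    exact h (by rw [h2, this, h0])

lemma ey_zero : ey 0 = 1 := by
  classical
  ext d
  show ey 0 d = _
  unfold ey
  rw [MvPowerSeries.coeff_one]
  have h0 : (0 : Var →₀ ℕ) = sqf ∅ ∅ := by simp [sqf]
  by_cases h : d = 0
  · rw [if_pos h, if_pos]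
    exact ⟨∅, by simp, by rw [h, h0]⟩
  · rw [if_neg h, if_neg]
    rintro ⟨S, h1, h2⟩
    have : S = ∅ := by
      rw [← Finset.card_eq_zero]
      exact_mod_cast h1
    exact h (by rw [h2, this, h0])

lemma antitone_cons {n : ℕ} {f : Fin (n + 1) → ℕ} (hf : Antitone f) {a : ℕ} (ha : f 0 ≤ a) :
    Antitone (Fin.cons a f : Fin (n + 2) → ℕ) := by
  intro i j hij
  induction j using Fin.cases with
  | zero =>
    have : i = 0 := Fin.le_zero_iff.mp hij
    rw [this]
  | succ j =>
    induction i using Fin.cases with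
    | zero =>
      simp only [Fin.cons_succ, Fin.cons_zero]
      exact le_trans (hf (Fin.zero_le j)) ha
    | succ i =>
      simp only [Fin.cons_succ]
      exact hf (Fin.succ_le_succ_iff.mp hij)

/-- Adding a first row in which the two partitions agree does not change the determinant. -/
lemma det_cons {n : ℕ} (lam mu nu rho : Fin (n + 1) → ℕ) (h1 : Antitone lam) :
    Matrix.det (Matrix.hadamard
      (JT ex (Fin.cons (lam 0) lam : Fin (n + 2) → ℕ) (Fin.cons (lam 0) mu))
      (JT ey (Fin.cons (nu 0) nu : Fin (n + 2) → ℕ) (Fin.cons (nu 0) rho))) =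
    Matrix.det (Matrix.hadamard (JT ex lam mu) (JT ey nu rho)) := by
  rw [Matrix.det_succ_column_zero, Fin.sum_univ_succ]
  rw [Finset.sum_eq_zero (s := Finset.univ)]
  · have h00 : Matrix.hadamard
      (JT ex (Fin.cons (lam 0) lam : Fin (n + 2) → ℕ) (Fin.cons (lam 0) mu))
      (JT ey (Fin.cons (nu 0) nu : Fin (n + 2) → ℕ) (Fin.cons (nu 0) rho)) 0 0 = 1 := by
      rw [Matrix.hadamard_apply]
      have a1 : JT ex (Fin.cons (lam 0) lam : Fin (n + 2) → ℕ) (Fin.cons (lam 0) mu) 0 0
        = 1 := by simp [JT, ex_zero]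
      have a2 : JT ey (Fin.cons (nu 0) nu : Fin (n + 2) → ℕ) (Fin.cons (nu 0) rho) 0 0
        = 1 := by simp [JT, ey_zero]
      rw [a1, a2, one_mul]
    rw [h00]
    simp only [Fin.val_zero, pow_zero, one_mul, add_zero]
    congr 1
    ext1 i j
    simp only [Matrix.submatrix_apply, Matrix.hadamard_apply, Fin.succAbove_zero, JT,
      Matrix.of_apply, Fin.cons_succ, Fin.val_succ]
    congr 2 <;> push_cast <;> ring
  · intro i _
    have : JT ex (Fin.cons (lam 0) lam : Fin (n + 2) → ℕ) (Fin.cons (lam 0) mu) i.succ 0 = 0 := by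
      simp only [JT, Matrix.of_apply, Fin.cons_succ, Fin.cons_zero, Fin.val_succ, Fin.val_zero]
      apply ex_neg
      have := h1 (Fin.zero_le i)
      push_cast
      omega
    rw [Matrix.hadamard_apply, this]
    simp

/-- **The conjectures on immanants of Hadamard products of Jacobi-Trudi matrices are false.**
For every `n ≥ 3` there are partitions `μ ⊆ λ` and `ρ ⊆ ν` of length at most `n` such that the
coefficient of `x_0 ⋯ x_42 y_0 ⋯ y_46`, that is, of `m_{(1^43)}(x) m_{(1^47)}(y)`, in the immanant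
of the sign character (the determinant) of `JT_{λ/μ}(x) * JT_{ν/ρ}(y)` is negative. -/
theorem result : ∀ n : ℕ, 3 ≤ n → ∃ lam mu nu rho : Fin n → ℕ,
    Antitone lam ∧ Antitone mu ∧ Antitone nu ∧ Antitone rho ∧ mu ≤ lam ∧ rho ≤ nu ∧
    MvPowerSeries.coeff (sqf (range 43) (range 47))
      (immanant (fun w => (Equiv.Perm.sign w : ℤ))
        (Matrix.hadamard (JT ex lam mu) (JT ey nu rho))) < 0 := by
  intro n hn
  simp only [immanant_sign]
  induction n, hn using Nat.le_induction with
  | base =>
    refine ⟨![17, 15, 15], ![2, 2, 0], ![17, 17, 15], ![2, 0, 0], ?_, ?_, ?_, ?_, ?_, ?_, base⟩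
    · unfold Antitone; decide
    · unfold Antitone; decide
    · unfold Antitone; decide
    · unfold Antitone; decide
    · rw [Pi.le_def]; decide
    · rw [Pi.le_def]; decide
  | succ n hn ih =>
    obtain ⟨lam, mu, nu, rho, h1, h2, h3, h4, h5, h6, h7⟩ := ih
    obtain ⟨m, rfl⟩ : ∃ m, n = m + 1 := ⟨n - 1, by omega⟩
    refine ⟨Fin.cons (lam 0) lam, Fin.cons (lam 0) mu, Fin.cons (nu 0) nu, Fin.cons (nu 0) rho,
      antitone_cons h1 le_rfl, antitone_cons h2 (h5 0), antitone_cons h3 le_rfl,
      antitone_cons h4 (h6 0), ?_, ?_, ?_⟩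
    · intro i
      induction i using Fin.cases with
      | zero => simp
      | succ i => simpa using h5 i
    · intro i
      induction i using Fin.cases with
      | zero => simp
      | succ i => simpa using h6 i
    · rw [det_cons lam mu nu rho h1]
      exact h7

end Pool.Agent.Results.MP_099a0f_co.NegativeDeterminants
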